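import Pool.Agent.Lib_helper68.KSLF.SPM

/-! The coefficients of the approximate inverse of the Euler product over the small primes times a
fixed polynomial: pointwise bound. -/

namespace Pool.Agent.LSP

open Pool.Agent.LEV Pool.Agent.LVB Pool.Agent.KSL
open Pool.Agent.FG61 (mu phi cc ff AA Lam)
open Complex MeasureTheory Filter Topology UpperHalfPlane ModularGroup ProbabilityTheory
open scoped MatrixGroups Modular ENNReal ModularForm ComplexConjugate ContDiff

/-- the product of the factorials of the exponents -/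
noncomputable def spp_g (I : Finset ℕ) (m : ℕ) : ℝ := ∏ q ∈ I, ((m.factorization q).factorial : ℝ)

/-- the number of prime factors in `I` -/
def spp_O (I : Finset ℕ) (m : ℕ) : ℕ := ∑ q ∈ I, m.factorization q

/-- the majorant -/
noncomputable def spp_t (H : ℝ) (j w : ℕ) : ℝ :=
  ∑ b ∈ Finset.range (j + 1), if w + 2 * b = j then H ^ b / (b.factorial : ℝ) else 0

/-- the moments -/
noncomputable def spp_M (P : Measure (ℕ → ℝ)) (I : Finset ℕ) (j m : ℕ) : ℝ :=
  ∫ x, PB I x ^ j * Um m x ∂P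

lemma spp_g_pos (I : Finset ℕ) (m : ℕ) : 1 ≤ spp_g I m := by
  have h1 : spp_g I m = ((∏ q ∈ I, (m.factorization q).factorial : ℕ) : ℝ) := by
    unfold spp_g
    push_cast
    rfl
  rw [h1]
  exact_mod_cast Finset.prod_pos fun q _ => Nat.factorial_pos _

lemma spp_g_mul {I : Finset ℕ} {p m : ℕ} (hp : p.Prime) (hpI : p ∈ I) (hm : m ≠ 0) :
    spp_g I (p * m) = (m.factorization p + 1) * spp_g I m := by
  unfold spp_g
  rw [← Finset.mul_prod_erase I _ hpI, ← Finset.mul_prod_erase I _ hpI, ← mul_assoc]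
  have h1 : (p * m).factorization = Finsupp.single p 1 + m.factorization := by
    rw [Nat.factorization_mul hp.ne_zero hm, hp.factorization]
  congr 1
  · rw [h1]
    simp only [Finsupp.coe_add, Pi.add_apply, Finsupp.single_eq_same]
    rw [add_comm 1, Nat.factorial_succ]
    push_cast
    ring
  · apply Finset.prod_congr rfl
    intro q hq
    rw [h1]
    simp only [Finsupp.coe_add, Pi.add_apply]
    rw [Finsupp.single_eq_of_ne (Finset.ne_of_mem_erase hq), zero_add]

lemma spp_O_mul {I : Finset ℕ} {p m : ℕ} (hp : p.Prime) (hpI : p ∈ I) (hm : m ≠ 0) :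
    spp_O I (p * m) = spp_O I m + 1 := by
  unfold spp_O
  have h1 : (p * m).factorization = Finsupp.single p 1 + m.factorization := by
    rw [Nat.factorization_mul hp.ne_zero hm, hp.factorization]
  rw [h1]
  simp only [Finsupp.coe_add, Pi.add_apply]
  rw [Finset.sum_add_distrib, add_comm]
  congr 1
  rw [Finset.sum_eq_single p]
  · simp
  · intro q _ hq
    rw [Finsupp.single_eq_of_ne hq]
  · intro h; exact absurd hpI h

lemma spp_t_nonneg {H : ℝ} (hH : 0 ≤ H) (j w : ℕ) : 0 ≤ spp_t H j w := by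
  unfold spp_t
  apply Finset.sum_nonneg
  intro b _
  split_ifs <;> positivity

/-- the recursion for the majorant -/
lemma spp_t_rec (H : ℝ) (j w : ℕ) :
    (w : ℝ) * spp_t H j (w - 1) + 2 * H * spp_t H j (w + 1) ≤ (j + 1 : ℝ) * spp_t H (j + 1) w := by
  have key : ∀ j w b : ℕ, w + 2 * b = j → spp_t H j w = H ^ b / (b.factorial : ℝ) := by
    intro j w b hb
    unfold spp_t
    rw [Finset.sum_eq_single b]
    · rw [if_pos hb]
    · intro c _ hc
      rw [if_neg]
      omega
    · intro h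
      exact absurd (Finset.mem_range.mpr (by omega)) h
  have key0 : ∀ j w : ℕ, (∀ b, w + 2 * b ≠ j) → spp_t H j w = 0 := by
    intro j w h
    unfold spp_t
    apply Finset.sum_eq_zero
    intro b _
    rw [if_neg (h b)]
  by_cases h : ∃ b, w + 2 * b = j + 1
  · obtain ⟨b, hb⟩ := h
    rw [key (j + 1) w b hb]
    have h1 : (w : ℝ) * spp_t H j (w - 1) = w * (H ^ b / (b.factorial : ℝ)) := by
      rcases Nat.eq_zero_or_pos w with hw | hw
      · rw [hw]; simp
      · rw [key j (w - 1) b (by omega)]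
    have h2 : 2 * H * spp_t H j (w + 1) = 2 * b * (H ^ b / (b.factorial : ℝ)) := by
      rcases Nat.eq_zero_or_pos b with hb0 | hb0
      · rw [key0 j (w + 1) (by intro c; omega), hb0]; simp
      · obtain ⟨c, rfl⟩ : ∃ c, b = c + 1 := ⟨b - 1, by omega⟩
        rw [key j (w + 1) c (by omega), Nat.factorial_succ]
        push_cast
        have : (c.factorial : ℝ) ≠ 0 := by exact_mod_cast Nat.factorial_ne_zero c
        have : (c + 1 : ℝ) ≠ 0 := by positivity
        field_simp
        ring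
    rw [h1, h2]
    have h3 : (w : ℝ) + 2 * b = j + 1 := by exact_mod_cast hb
    rw [← h3]
    apply le_of_eq
    ring
  · push Not at h
    rw [key0 (j + 1) w h]
    have h1 : (w : ℝ) * spp_t H j (w - 1) = 0 := by
      rcases Nat.eq_zero_or_pos w with hw | hw
      · rw [hw]; simp
      · rw [key0 j (w - 1) (by intro b hb; exact h b (by omega)), mul_zero]
    have h2 : spp_t H j (w + 1) = 0 := key0 j (w + 1) (by intro b hb; exact h (b + 1) (by omega))
    rw [h1, h2]
    simp

lemma spp_sum_t {H : ℝ} (hH : 0 ≤ H) (J w : ℕ) :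
    ∑ j ∈ Finset.range J, spp_t H j w ≤ Real.exp H := by
  have h1 : ∀ j ∈ Finset.range J, spp_t H j w =
      ∑ b ∈ Finset.range J, if w + 2 * b = j then H ^ b / (b.factorial : ℝ) else 0 := by
    intro j hj
    rw [Finset.mem_range] at hj
    unfold spp_t
    apply Finset.sum_subset (Finset.range_subset_range.mpr (by omega))
    intro b _ hb
    rw [Finset.mem_range] at hb
    rw [if_neg (by omega)]
  rw [Finset.sum_congr rfl h1, Finset.sum_comm]
  refine le_trans (Finset.sum_le_sum (g := fun b => H ^ b / (b.factorial : ℝ)) fun b _ => ?_)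
    (Real.sum_le_exp_of_nonneg hH J)
  rw [Finset.sum_ite_eq]
  split_ifs
  · exact le_rfl
  · positivity

lemma spp_int {I : Finset ℕ} {P : Measure (ℕ → ℝ)} (hP : IsST I P) (j : ℕ) {m : ℕ}
    (hm : m.primeFactors ⊆ I) : Integrable (fun x => PB I x ^ j * Um m x) P := by
  have := hP.prob
  refine spm_int_bdd (((BLE_PB_meas I).pow_const j).mul (um_meas m))
    (B := (∑ p ∈ I, 2 / Real.sqrt p) ^ j * ∏ p ∈ m.primeFactors, ((m.factorization p : ℝ) + 1)) ?_
  filter_upwards [hP.bdd] with x hx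
  rw [abs_mul, abs_pow]
  exact mul_le_mul (pow_le_pow_left₀ (abs_nonneg _) (BLE_PB_bdd hx) j) (spm_um_bd hm hx)
    (abs_nonneg _) (by positivity)

lemma spp_rec {I : Finset ℕ} (hI : ∀ p ∈ I, p.Prime) {P : Measure (ℕ → ℝ)} (hP : IsST I P) (j : ℕ)
    {m : ℕ} (hm0 : 0 < m) (hm : m.primeFactors ⊆ I) :
    spp_M P I (j + 1) m = ∑ p ∈ I, 1 / Real.sqrt p * (spp_M P I j (p * m) +
      if p ∣ m then spp_M P I j (m / p) else 0) := by
  unfold spp_M
  have h1 : ∀ x : ℕ → ℝ, PB I x ^ (j + 1) * Um m x = ∑ p ∈ I, 1 / Real.sqrt p *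
      (PB I x ^ j * Um (p * m) x + if p ∣ m then PB I x ^ j * Um (m / p) x else 0) := by
    intro x
    have h2 : PB I x * Um m x = ∑ p ∈ I, 1 / Real.sqrt p *
        (Um (p * m) x + if p ∣ m then Um (m / p) x else 0) := by
      unfold PB
      rw [Finset.sum_mul]
      apply Finset.sum_congr rfl
      intro p hp
      rw [← HPO_rec (hI p hp) hm0 x]
      ring
    rw [pow_succ, mul_assoc, h2, Finset.mul_sum]
    apply Finset.sum_congr rfl
    intro p _
    split_ifs <;> ring
  have h3 : ∀ p ∈ I, Integrable (fun x => PB I x ^ j * Um (p * m) x) P := by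
    intro p hp
    apply spp_int hP
    rw [Nat.primeFactors_mul (hI p hp).ne_zero hm0.ne', (hI p hp).primeFactors]
    exact Finset.union_subset (Finset.singleton_subset_iff.2 hp) hm
  have h4 : ∀ p ∈ I, Integrable (fun x => if p ∣ m then PB I x ^ j * Um (m / p) x else 0) P := by
    intro p hp
    by_cases hd : p ∣ m
    · simp only [if_pos hd]
      apply spp_int hP
      exact (Nat.primeFactors_mono (Nat.div_dvd_of_dvd hd) hm0.ne').trans hm
    · simp only [if_neg hd]
      exact integrable_zero _ _ _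
  simp only [h1]
  rw [integral_finsetSum]
  · apply Finset.sum_congr rfl
    intro p hp
    rw [integral_const_mul, integral_add (h3 p hp) (h4 p hp)]
    congr 2
    split_ifs
    · rfl
    · simp
  · intro p hp
    exact ((h3 p hp).add (h4 p hp)).const_mul _

theorem spp_main {I : Finset ℕ} (hI : ∀ p ∈ I, p.Prime) {P : Measure (ℕ → ℝ)} (hP : IsST I P)
    (j : ℕ) : ∀ m : ℕ, 0 < m → m.primeFactors ⊆ I → 0 ≤ spp_M P I j m ∧
      spp_M P I j m * Real.sqrt m * spp_g I m ≤ j.factorial * spp_t (HB I / 2) j (spp_O I m) := by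
  have hH : 0 ≤ HB I / 2 := by
    unfold HB
    have : 0 ≤ ∑ p ∈ I, 1 / (p : ℝ) := Finset.sum_nonneg fun p _ => by positivity
    linarith
  induction j with
  | zero =>
    intro m hm0 hm
    have h1 : spp_M P I 0 m = if m = 1 then 1 else 0 := by
      unfold spp_M
      have := STO_orth hP (n := m) (n' := 1) hm0.ne' one_ne_zero hm (by simp)
      simp only [HPO_um_one, mul_one] at this
      simpa using this
    rw [h1]
    split_ifs with h
    · subst h
      refine ⟨zero_le_one, ?_⟩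
      have h2 : spp_g I 1 = 1 := by unfold spp_g; simp
      have h3 : spp_O I 1 = 0 := by unfold spp_O; simp
      rw [h2, h3]
      unfold spp_t
      simp
    · refine ⟨le_rfl, ?_⟩
      rw [zero_mul, zero_mul]
      have := spp_t_nonneg hH 0 (spp_O I m)
      positivity
  | succ j ih =>
    intro m hm0 hm
    have hpm : ∀ p ∈ I, (p * m).primeFactors ⊆ I := by
      intro p hp
      rw [Nat.primeFactors_mul (hI p hp).ne_zero hm0.ne', (hI p hp).primeFactors]
      exact Finset.union_subset (Finset.singleton_subset_iff.2 hp) hm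
    have hmp : ∀ p ∈ I, p ∣ m → (m / p).primeFactors ⊆ I := fun p _ hd =>
      (Nat.primeFactors_mono (Nat.div_dvd_of_dvd hd) hm0.ne').trans hm
    have hmp0 : ∀ p ∈ I, p ∣ m → 0 < m / p := fun p hp hd =>
      Nat.div_pos (Nat.le_of_dvd hm0 hd) (hI p hp).pos
    rw [spp_rec hI hP j hm0 hm]
    constructor
    · apply Finset.sum_nonneg
      intro p hp
      have h1 := (ih (p * m) (Nat.mul_pos (hI p hp).pos hm0) (hpm p hp)).1
      have h2 : 0 ≤ if p ∣ m then spp_M P I j (m / p) else 0 := by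
        split_ifs with hd
        · exact (ih (m / p) (hmp0 p hp hd) (hmp p hp hd)).1
        · exact le_rfl
      have : (0 : ℝ) ≤ 1 / Real.sqrt p := by positivity
      exact mul_nonneg this (add_nonneg h1 h2)
    · -- the bound
      set w := spp_O I m with hw
      have hs0 : 0 < Real.sqrt m := Real.sqrt_pos.mpr (by exact_mod_cast hm0)
      have hg := spp_g_pos I m
      have hterm : ∀ p ∈ I, 1 / Real.sqrt p * (spp_M P I j (p * m) +
          if p ∣ m then spp_M P I j (m / p) else 0) * Real.sqrt m * spp_g I m ≤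
          (j.factorial : ℝ) * (1 / (p : ℝ) * spp_t (HB I / 2) j (w + 1) +
            (m.factorization p : ℝ) * spp_t (HB I / 2) j (w - 1)) := by
        intro p hp
        have hpp := hI p hp
        have hp0 : (0 : ℝ) < p := by exact_mod_cast hpp.pos
        have hsp : 0 < Real.sqrt p := Real.sqrt_pos.mpr hp0
        have hspp : Real.sqrt p * Real.sqrt p = p := Real.mul_self_sqrt hp0.le
        obtain ⟨a1, a2⟩ := ih (p * m) (Nat.mul_pos hpp.pos hm0) (hpm p hp)
        rw [spp_g_mul hpp hp hm0.ne', spp_O_mul hpp hp hm0.ne'] at a2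
        have a3 : Real.sqrt ((p * m : ℕ) : ℝ) = Real.sqrt p * Real.sqrt m := by
          rw [Nat.cast_mul, Real.sqrt_mul hp0.le]
        rw [a3] at a2
        have b1 : 1 / Real.sqrt p * spp_M P I j (p * m) * Real.sqrt m * spp_g I m ≤
            (j.factorial : ℝ) * (1 / (p : ℝ) * spp_t (HB I / 2) j (w + 1)) := by
          have c1 : 1 / Real.sqrt p * spp_M P I j (p * m) * Real.sqrt m * spp_g I m ≤
              1 / (p : ℝ) * (spp_M P I j (p * m) * (Real.sqrt p * Real.sqrt m) *
                (((m.factorization p : ℕ) + 1 : ℝ) * spp_g I m)) := by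
            have d1 : 1 / Real.sqrt p * spp_M P I j (p * m) * Real.sqrt m * spp_g I m =
                1 / (p : ℝ) * (spp_M P I j (p * m) * (Real.sqrt p * Real.sqrt m) * (1 * spp_g I m)) := by
              have : 1 / Real.sqrt p = Real.sqrt p / p := by
                rw [div_eq_div_iff hsp.ne' hp0.ne', hspp, one_mul]
              rw [this]
              ring
            rw [d1]
            have d2 : (1 : ℝ) ≤ ((m.factorization p : ℕ) + 1 : ℝ) := by
              have : (0 : ℝ) ≤ (m.factorization p : ℕ) := Nat.cast_nonneg _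
              linarith
            gcongr
          refine c1.trans ?_
          calc _ ≤ 1 / (p : ℝ) * (j.factorial * spp_t (HB I / 2) j (w + 1)) := by
                apply mul_le_mul_of_nonneg_left a2 (by positivity)
            _ = _ := by ring
        have b2 : 1 / Real.sqrt p * (if p ∣ m then spp_M P I j (m / p) else 0) * Real.sqrt m *
            spp_g I m ≤ (j.factorial : ℝ) * ((m.factorization p : ℝ) * spp_t (HB I / 2) j (w - 1)) := by
          split_ifs with hd
          · obtain ⟨e1, e2⟩ := ih (m / p) (hmp0 p hp hd) (hmp p hp hd)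
            obtain ⟨m', rfl⟩ := hd
            have hm' : m' ≠ 0 := by
              rintro rfl
              simp at hm0
            rw [Nat.mul_div_cancel_left m' hpp.pos] at e1 e2 ⊢
            rw [hw, spp_O_mul hpp hp hm', Nat.add_sub_cancel, spp_g_mul hpp hp hm']
            have f1 : Real.sqrt ((p * m' : ℕ) : ℝ) = Real.sqrt p * Real.sqrt m' := by
              rw [Nat.cast_mul, Real.sqrt_mul hp0.le]
            have f2 : ((p * m').factorization p : ℝ) = m'.factorization p + 1 := by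
              rw [Nat.factorization_mul hpp.ne_zero hm', hpp.factorization]
              simp only [Finsupp.coe_add, Pi.add_apply, Finsupp.single_eq_same]
              push_cast
              ring
            rw [f1, f2]
            calc _ = (m'.factorization p + 1 : ℝ) * (spp_M P I j m' * Real.sqrt m' * spp_g I m') := by
                  field_simp
              _ ≤ (m'.factorization p + 1 : ℝ) * (j.factorial * spp_t (HB I / 2) j (spp_O I m')) := by
                  gcongr
              _ = _ := by ring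
          · rw [mul_zero, zero_mul, zero_mul]
            have := spp_t_nonneg hH j (w - 1)
            positivity
        calc _ = 1 / Real.sqrt p * spp_M P I j (p * m) * Real.sqrt m * spp_g I m +
              1 / Real.sqrt p * (if p ∣ m then spp_M P I j (m / p) else 0) * Real.sqrt m *
              spp_g I m := by ring
          _ ≤ _ := add_le_add b1 b2
          _ = _ := by ring
      rw [Finset.sum_mul, Finset.sum_mul]
      refine (Finset.sum_le_sum hterm).trans ?_
      rw [← Finset.mul_sum, Finset.sum_add_distrib, ← Finset.sum_mul, ← Finset.sum_mul]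
      have h5 : ∑ p ∈ I, 1 / (p : ℝ) = 2 * (HB I / 2) := by unfold HB; ring
      have h6 : ∑ p ∈ I, (m.factorization p : ℝ) = w := by
        rw [hw]; unfold spp_O; push_cast; rfl
      rw [h5, h6, Nat.factorial_succ]
      have h7 := spp_t_rec (HB I / 2) j w
      push_cast
      calc (j.factorial : ℝ) * (2 * (HB I / 2) * spp_t (HB I / 2) j (w + 1) +
            w * spp_t (HB I / 2) j (w - 1))
          ≤ (j.factorial : ℝ) * ((j + 1 : ℝ) * spp_t (HB I / 2) (j + 1) w) := by
            apply mul_le_mul_of_nonneg_left _ (by positivity)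
            linarith
        _ = _ := by ring

/-- the coefficients of the mollifier over the primes in `I` -/
theorem spp_mb1 {I : Finset ℕ} (hI : ∀ p ∈ I, p.Prime) {P : Measure (ℕ → ℝ)} (hP : IsST I P)
    (K : ℕ) {m : ℕ} (hm0 : 0 < m) (hm : m.primeFactors ⊆ I) :
    |∫ x, mb1 I K x * Um m x ∂P| * Real.sqrt m ≤ Real.exp (HB I) := by
  have hH : 0 ≤ HB I / 2 := by
    unfold HB
    have : 0 ≤ ∑ p ∈ I, 1 / (p : ℝ) := Finset.sum_nonneg fun p _ => by positivity
    linarith
  have h1 : ∀ x : ℕ → ℝ, mb1 I K x * Um m x = ∑ j ∈ Finset.range (2 * K + 1),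
      (Real.exp (HB I / 2) * (-1) ^ j / (j.factorial : ℝ)) * (PB I x ^ j * Um m x) := by
    intro x
    unfold mb1 ex
    rw [Finset.mul_sum, Finset.sum_mul]
    apply Finset.sum_congr rfl
    intro j _
    rw [neg_pow]
    ring
  have h2 : ∫ x, mb1 I K x * Um m x ∂P = ∑ j ∈ Finset.range (2 * K + 1),
      (Real.exp (HB I / 2) * (-1) ^ j / (j.factorial : ℝ)) * spp_M P I j m := by
    simp only [h1]
    rw [integral_finsetSum]
    · apply Finset.sum_congr rfl
      intro j _
      rw [integral_const_mul]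
      rfl
    · intro j _
      exact (spp_int hP j hm).const_mul _
  have hs0 : 0 < Real.sqrt m := Real.sqrt_pos.mpr (by exact_mod_cast hm0)
  rw [h2]
  calc |∑ j ∈ Finset.range (2 * K + 1),
        (Real.exp (HB I / 2) * (-1) ^ j / (j.factorial : ℝ)) * spp_M P I j m| * Real.sqrt m
      ≤ (∑ j ∈ Finset.range (2 * K + 1),
        |(Real.exp (HB I / 2) * (-1) ^ j / (j.factorial : ℝ)) * spp_M P I j m|) * Real.sqrt m := by
        gcongr
        exact Finset.abs_sum_le_sum_abs _ _
    _ = ∑ j ∈ Finset.range (2 * K + 1),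
        Real.exp (HB I / 2) / (j.factorial : ℝ) * (spp_M P I j m * Real.sqrt m) := by
        rw [Finset.sum_mul]
        apply Finset.sum_congr rfl
        intro j _
        have h3 := (spp_main hI hP j m hm0 hm).1
        rw [abs_mul, abs_of_nonneg h3, abs_div, abs_mul, abs_pow, abs_neg, abs_one, one_pow,
          abs_of_pos (Real.exp_pos _), mul_one, abs_of_nonneg (by positivity : (0 : ℝ) ≤ j.factorial)]
        ring
    _ ≤ ∑ j ∈ Finset.range (2 * K + 1), Real.exp (HB I / 2) * spp_t (HB I / 2) j (spp_O I m) := by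
        apply Finset.sum_le_sum
        intro j _
        obtain ⟨h3, h4⟩ := spp_main hI hP j m hm0 hm
        have hg := spp_g_pos I m
        have hf : (0 : ℝ) < j.factorial := by exact_mod_cast Nat.factorial_pos j
        have h5 : spp_M P I j m * Real.sqrt m ≤ j.factorial * spp_t (HB I / 2) j (spp_O I m) := by
          refine le_trans ?_ h4
          have : 0 ≤ spp_M P I j m * Real.sqrt m := by positivity
          nlinarith
        calc Real.exp (HB I / 2) / (j.factorial : ℝ) * (spp_M P I j m * Real.sqrt m)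
            ≤ Real.exp (HB I / 2) / (j.factorial : ℝ) * (j.factorial * spp_t (HB I / 2) j (spp_O I m)) := by
              gcongr
          _ = _ := by field_simp
    _ = Real.exp (HB I / 2) * ∑ j ∈ Finset.range (2 * K + 1), spp_t (HB I / 2) j (spp_O I m) := by
        rw [Finset.mul_sum]
    _ ≤ Real.exp (HB I / 2) * Real.exp (HB I / 2) := by
        gcongr
        exact spp_sum_t hH _ _
    _ = Real.exp (HB I) := by
        rw [← Real.exp_add]
        congr 1
        ring

/-- the coefficients of a product with a polynomial in other variables -/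
theorem spp_prod {I J : Finset ℕ} (hIJ : Disjoint I J)
    {P : Measure (ℕ → ℝ)} (hP : IsST (I ∪ J) P) {X Y : ℕ} {G H : (ℕ → ℝ) → ℝ} {α β : ℕ → ℝ}
    (hα : ∀ m, α m ≠ 0 → 1 ≤ m ∧ m ≤ X ∧ m.primeFactors ⊆ I)
    (hG : ∀ x, G x = ∑ m ∈ Finset.Icc 1 X, α m * Um m x)
    (hβ : ∀ m, β m ≠ 0 → 1 ≤ m ∧ m ≤ Y ∧ m.primeFactors ⊆ J)
    (hH : ∀ x, H x = ∑ m ∈ Finset.Icc 1 Y, β m * Um m x) {A B : ℝ}
    (hA : ∀ m, |α m| ≤ A) (hB : ∀ m, |β m| * Real.sqrt m ≤ B) (hB0 : 0 ≤ B) {k : ℕ} (hk0 : 0 < k)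
    (hk : k.primeFactors ⊆ I ∪ J) :
    |∫ x, (G x * H x) * Um k x ∂P| * Real.sqrt k ≤ X * (A * Real.sqrt X * B) := by
  classical
  have := hP.prob
  have hA0 : 0 ≤ A := (abs_nonneg _).trans (hA 0)
  have hint : ∀ m n : ℕ, α m * β n ≠ 0 → (m * n ≠ 0 ∧ (m * n).primeFactors ⊆ I ∪ J ∧
      ∀ x, Um m x * Um n x = Um (m * n) x) := by
    intro m n h
    obtain ⟨h1, h2, h3⟩ := hα m (left_ne_zero_of_mul h)
    obtain ⟨h4, h5, h6⟩ := hβ n (right_ne_zero_of_mul h)
    have h7 : m * n ≠ 0 := Nat.mul_ne_zero (by omega) (by omega)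
    refine ⟨h7, ?_, fun x => ?_⟩
    · rw [Nat.primeFactors_mul (by omega) (by omega)]
      exact Finset.union_subset_union h3 h6
    · rw [HPO_um_mul]
      rw [Nat.coprime_iff_isRelPrime, ← Nat.coprime_iff_isRelPrime]
      apply Nat.Coprime.symm
      rw [Nat.coprime_comm]
      rw [← Nat.disjoint_primeFactors (by omega) (by omega)]
      exact Disjoint.mono h3 h6 hIJ
  have h1 : ∀ x, (G x * H x) * Um k x = ∑ m ∈ Finset.Icc 1 X, ∑ n ∈ Finset.Icc 1 Y,
      α m * β n * (Um (m * n) x * Um k x) := by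
    intro x
    rw [hG, hH, Finset.sum_mul_sum, Finset.sum_mul]
    apply Finset.sum_congr rfl
    intro m _
    rw [Finset.sum_mul]
    apply Finset.sum_congr rfl
    intro n _
    by_cases h : α m * β n = 0
    · rw [h, zero_mul]
      calc α m * Um m x * (β n * Um n x) * Um k x = (α m * β n) * (Um m x * Um n x * Um k x) := by ring
        _ = 0 := by rw [h, zero_mul]
    · rw [← (hint m n h).2.2 x]
      ring
  have h2 : ∀ m n : ℕ, Integrable (fun x => α m * β n * (Um (m * n) x * Um k x)) P := by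
    intro m n
    by_cases h : α m * β n = 0
    · simp only [h, zero_mul]
      exact integrable_zero _ _ _
    · exact (STO_int hP (hint m n h).2.1 hk).const_mul _
  have h3 : ∀ m n : ℕ, ∫ x, α m * β n * (Um (m * n) x * Um k x) ∂P =
      if m * n = k then α m * β n else 0 := by
    intro m n
    rw [integral_const_mul]
    by_cases h : α m * β n = 0
    · rw [h]; simp
    · rw [STO_orth hP (hint m n h).1 hk0.ne' (hint m n h).2.1 hk]
      split_ifs <;> simp
  simp only [h1]
  rw [integral_finsetSum _ (fun m _ => integrable_finsetSum _ (fun n _ => h2 m n))]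
  have h4 : ∀ m ∈ Finset.Icc 1 X, |∫ x, ∑ n ∈ Finset.Icc 1 Y, α m * β n * (Um (m * n) x * Um k x) ∂P| *
      Real.sqrt k ≤ A * Real.sqrt X * B := by
    intro m hm
    rw [Finset.mem_Icc] at hm
    rw [integral_finsetSum _ (fun n _ => h2 m n)]
    simp only [h3]
    by_cases hd : m ∣ k
    · obtain ⟨n, rfl⟩ := hd
      have h5 : ∀ n' ∈ Finset.Icc 1 Y, (if m * n' = m * n then α m * β n' else 0) =
          if n' = n then α m * β n else 0 := by
        intro n' _
        by_cases h6 : n' = n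
        · subst h6; simp
        · rw [if_neg h6, if_neg]
          intro h7
          exact h6 (Nat.eq_of_mul_eq_mul_left (by omega) h7)
      rw [Finset.sum_congr rfl h5, Finset.sum_ite_eq']
      have h8 : Real.sqrt ((m * n : ℕ) : ℝ) = Real.sqrt m * Real.sqrt n := by
        rw [Nat.cast_mul, Real.sqrt_mul (Nat.cast_nonneg _)]
      have h9 : Real.sqrt m ≤ Real.sqrt X := Real.sqrt_le_sqrt (by exact_mod_cast hm.2)
      split_ifs
      · rw [abs_mul, h8]
        calc |α m| * |β n| * (Real.sqrt m * Real.sqrt n)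
            = |α m| * Real.sqrt m * (|β n| * Real.sqrt n) := by ring
          _ ≤ A * Real.sqrt X * B := by
              have := hA m
              have := hB n
              gcongr
      · rw [abs_zero, zero_mul]; positivity
    · have h5 : ∀ n' ∈ Finset.Icc 1 Y, (if m * n' = k then α m * β n' else 0) = 0 := by
        intro n' _
        rw [if_neg]
        intro h
        exact hd (Dvd.intro _ h)
      rw [Finset.sum_congr rfl h5]
      simp only [Finset.sum_const_zero, abs_zero, zero_mul]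
      positivity
  calc _ ≤ (∑ m ∈ Finset.Icc 1 X, |∫ x, ∑ n ∈ Finset.Icc 1 Y, α m * β n *
        (Um (m * n) x * Um k x) ∂P|) * Real.sqrt k := by
        gcongr
        exact Finset.abs_sum_le_sum_abs _ _
    _ ≤ ∑ m ∈ Finset.Icc 1 X, A * Real.sqrt X * B := by
        rw [Finset.sum_mul]
        exact Finset.sum_le_sum h4
    _ = X * (A * Real.sqrt X * B) := by
        rw [Finset.sum_const, Nat.card_Icc, Nat.add_sub_cancel, nsmul_eq_mul]

/-- sizes -/
theorem spp_size (C D : ℝ) (m₀ : ℕ) {ε₂ : ℝ} (h2 : 0 < ε₂) : ∃ N₀ : ℕ, ∀ N : ℕ, N₀ ≤ N →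
    3 ≤ (N : ℝ) ∧ (m₀ : ℝ) ≤ Real.log (Real.log N) ∧ 1 + |C| ≤ Real.log N ∧ Real.exp D ≤ Real.log N ∧
      (m₀ : ℝ) ≤ Real.log N ∧ m₀ ≤ KA (ε₂ / 4) N := by
  have h1 : ∀ᶠ N : ℕ in atTop, 3 ≤ (N : ℝ) :=
    tendsto_natCast_atTop_atTop.eventually_ge_atTop 3
  have h3 := LEN_logs.eventually_ge_atTop (m₀ : ℝ)
  have h4 : Tendsto (fun N : ℕ => Real.log (N : ℝ)) atTop atTop :=
    Real.tendsto_log_atTop.comp tendsto_natCast_atTop_atTop
  have h5 := h4.eventually_ge_atTop (1 + |C|)
  have h6 := h4.eventually_ge_atTop (Real.exp D)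
  have h7 := h4.eventually_ge_atTop (m₀ : ℝ)
  have h8 : ∀ᶠ N : ℕ in atTop, (m₀ : ℝ) ≤ (N : ℝ) ^ (ε₂ / 4) :=
    ((tendsto_rpow_atTop (by positivity : 0 < ε₂ / 4)).comp
      tendsto_natCast_atTop_atTop).eventually_ge_atTop _
  obtain ⟨N₀, h⟩ := (h1.and (h3.and (h5.and (h6.and (h7.and h8))))).exists_forall_of_atTop
  refine ⟨N₀, fun N hN => ?_⟩
  obtain ⟨a1, a2, a3, a4, a5, a6⟩ := h N hN
  exact ⟨a1, a2, a3, a4, a5, Nat.le_floor a6⟩

/-- **the small factor of the mollifier for a fixed polynomial**, with a pointwise bound for the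
coefficients -/
theorem sp_multP : ∃ A₁ : ℕ, 1 ≤ A₁ ∧ ∀ ε₂ ε C₄ : ℝ, 0 < ε₂ → 0 < ε → ∀ m₀ : ℕ, ∃ N₀ : ℕ,
    ∀ N : ℕ, N₀ ≤ N → ∀ s : ℕ → ℝ, (∀ m, s m ≠ 0 → 1 ≤ m ∧ m ≤ m₀) →
    ∀ P : Measure (ℕ → ℝ), IsST (IZ N) P →
    ∫ x, (∑ m ∈ Finset.Icc 1 (KA ε₂ N), s m * Um m x) ^ 4 ∂P ≤ C₄ →
    ∃ a : ℕ → ℝ, Sht (zz N) (KA ε₂ N) a ∧
      (∀ x, ∑ k ∈ Finset.Icc 1 (KA ε₂ N), a k * Um k x =
        Bz A₁ N x * ∑ m ∈ Finset.Icc 1 (KA ε₂ N), s m * Um m x) ∧
      cd (zz N) (KA ε₂ N) a s ≤ ε ∧
      Real.sqrt (cn (zz N) (KA ε₂ N) a) ≤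
        Real.sqrt (∑ m ∈ Finset.Icc 1 (KA ε₂ N), s m ^ 2) + Real.sqrt ε ∧
      ∀ k : ℕ, |a k| * Real.sqrt k ≤ Real.log N ^ 10 := by
  classical
  obtain ⟨A₁, hA₁, hsp⟩ := sp_mult
  refine ⟨A₁, hA₁, fun ε₂ ε C₄ hε₂ hε m₀ => ?_⟩
  obtain ⟨N₁, hN₁⟩ := hsp ε₂ ε C₄ hε₂ hε
  obtain ⟨N₂, hN₂⟩ := iz_split
  obtain ⟨C2, hC2⟩ := Pool.Agent.LEV.mertens_two
  obtain ⟨N₃, hN₃⟩ := spp_size C₄ C2 m₀ hε₂
  refine ⟨max N₁ (max N₂ N₃), fun N hN s hs P hP hC4 => ?_⟩
  simp only [max_le_iff] at hN
  obtain ⟨hn1, hn2, hn3⟩ := hN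
  obtain ⟨hz, hdis, hpr', hsm, -⟩ := hN₂ N hn2
  obtain ⟨h3, hm₀, hC4', hD, hm₀', hKA⟩ := hN₃ N hn3
  have := hP.prob
  have hpr : ∀ p ∈ IZ N, p.Prime := fun p hp => (hpr' p hp).1
  have hlog1 : 1 ≤ Real.log N := le_trans (by linarith [abs_nonneg C₄]) hC4'
  have hlog0 : 0 < Real.log N := by linarith
  set L := Real.log N with hLdef
  have hLL0 : 0 ≤ Real.log L := Real.log_nonneg hlog1
  have hsI0 : ∀ m, s m ≠ 0 → m.primeFactors ⊆ I0 N := by
    intro m hm p hp
    obtain ⟨h1, h2⟩ := hs m hm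
    have hp1 := Nat.mem_primeFactors.mp hp
    have hp2 : p ≤ m₀ := (Nat.le_of_dvd (by omega) hp1.2.1).trans h2
    rw [I0, Finset.mem_filter, Finset.mem_Icc]
    refine ⟨⟨hp1.1.one_lt.le, Nat.le_floor ?_⟩, hp1.1⟩
    exact le_trans (by exact_mod_cast hp2) hm₀
  have hI0 : I0 N ⊆ IZ N := by rw [hz]; exact Finset.subset_union_left
  have hIN : IN N ⊆ IZ N := by rw [hz]; exact Finset.subset_union_right
  have hs' : ∀ m, s m ≠ 0 → 1 ≤ m ∧ m ≤ KA (ε₂ / 4) N ∧ m.primeFactors ⊆ IZ N := fun m hm =>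
    ⟨(hs m hm).1, (hs m hm).2.trans hKA, (hsI0 m hm).trans hI0⟩
  obtain ⟨a, ha, hax, hcd, hcn⟩ := hN₁ N hn1 s hs' P hP hC4
  refine ⟨a, ha, hax, hcd, hcn, fun k => ?_⟩
  by_cases hak : a k = 0
  · rw [hak, abs_zero, zero_mul]
    positivity
  set AA' := KA ε₂ N with hAA
  have haA : ∀ m, a m ≠ 0 → 1 ≤ m ∧ m ≤ AA' ∧ m.primeFactors ⊆ IZ N := by
    intro m hm
    obtain ⟨h1, h2⟩ := ha.sup m hm
    obtain ⟨h4, h5⟩ := (hsm m).mp h1
    exact ⟨h4, h2, h5⟩
  obtain ⟨hk1, hk2, hk3⟩ := haA k hak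
  have hprI0 : ∀ p ∈ I0 N, p.Prime := fun p hp => hpr p (hI0 hp)
  have hprIN : ∀ p ∈ IN N, p.Prime := fun p hp => hpr p (hIN hp)
  -- the polynomial in the tiny primes
  set S : (ℕ → ℝ) → ℝ := fun x => ∑ m ∈ Finset.Icc 1 AA', s m * Um m x with hS
  have hKA' : KA (ε₂ / 4) N ≤ AA' := by
    rw [hAA]
    unfold KA
    apply Nat.floor_mono
    exact Real.rpow_le_rpow_of_exponent_le (by linarith) (by linarith)
  have hSH : HPoly (I0 N) m₀ S := by
    refine ⟨s, fun m hm => ⟨(hs m hm).1, (hs m hm).2, hsI0 m hm⟩, fun x => ?_⟩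
    rw [hS]
    simp only
    symm
    apply Finset.sum_subset (Finset.Icc_subset_Icc le_rfl (hKA.trans hKA'))
    intro m _ hm2
    have : s m = 0 := by
      by_contra h
      exact hm2 (Finset.mem_Icc.mpr ⟨(hs m h).1, (hs m h).2⟩)
    rw [this, zero_mul]
  obtain ⟨α, hα, hαx⟩ := hpoly_mul hprI0 hprI0 (bzp_prod_hpoly (I0 N) hprI0) hSH
  rw [Finset.union_self] at hα
  set X := (∏ p ∈ I0 N, p) * m₀ with hX
  -- the polynomial in the other primes
  set K := A₁ * ⌈Real.log L⌉₊ with hK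
  obtain ⟨β, hβ, hβx⟩ : HPoly (IN N) (zz N ^ (2 * K)) (mb1 (IN N) K) := by
    apply hpoly_ex hprIN
    · apply Nat.le_floor
      rw [Nat.cast_one]
      unfold zN
      rw [← Real.exp_zero]
      apply Real.exp_le_exp.2
      positivity
    · intro p hp
      exact (Finset.mem_Icc.1 (Finset.mem_filter.1 hp).1).2
  have hPI0 : IsST (I0 N) P := st_sub hI0 hP
  have hPIN : IsST (IN N) P := st_sub hIN hP
  -- the coefficients `β`
  have hB : ∀ m, |β m| * Real.sqrt m ≤ Real.exp (HB (IN N)) := by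
    intro m
    by_cases hm : β m = 0
    · rw [hm, abs_zero, zero_mul]; positivity
    · obtain ⟨h4, h5, h6⟩ := hβ m hm
      have h7 := spm_orth hprIN hPIN hβ h4 h6
      have h8 := spp_mb1 hprIN hPIN K (m := m) h4 h6
      have h9 : ∫ x, mb1 (IN N) K x * Um m x ∂P = β m := by
        rw [← h7]
        apply integral_congr_ae
        exact Eventually.of_forall fun x => by beta_reduce; rw [hβx x]
      rwa [h9] at h8
  have hHB : Real.exp (HB (IN N)) ≤ L ^ 2 := by
    have h := psa_all hC2 (x := (N : ℝ)) (by linarith) (S := IN N) (fun p hp =>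
      ⟨hprIN p hp, by exact_mod_cast (hpr' p (hIN hp)).2.le⟩)
    calc Real.exp (HB (IN N)) ≤ Real.exp (Real.log L + C2) := Real.exp_le_exp.mpr h
      _ = L * Real.exp C2 := by rw [Real.exp_add, Real.exp_log hlog0]
      _ ≤ L * L := by gcongr
      _ = L ^ 2 := by ring
  -- the coefficients `α`
  have hcard : (16 : ℝ) ^ (I0 N).card ≤ L ^ 3 := by
    have b1 : (I0 N).card ≤ ⌊Real.log L⌋₊ := by
      calc (I0 N).card ≤ (Finset.Icc 1 ⌊Real.log L⌋₊).card := Finset.card_filter_le _ _
        _ = ⌊Real.log L⌋₊ := by simp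
    have b2 : ((I0 N).card : ℝ) ≤ Real.log L :=
      le_trans (by exact_mod_cast b1) (Nat.floor_le hLL0)
    calc (16 : ℝ) ^ (I0 N).card = (16 : ℝ) ^ ((I0 N).card : ℝ) := (Real.rpow_natCast _ _).symm
      _ ≤ (16 : ℝ) ^ (Real.log L) := Real.rpow_le_rpow_of_exponent_le (by norm_num) b2
      _ ≤ L ^ (3 : ℝ) := by
          rw [Real.rpow_def_of_pos (by norm_num), Real.rpow_def_of_pos hlog0]
          apply Real.exp_le_exp.2
          rw [mul_comm (Real.log L)]
          apply mul_le_mul_of_nonneg_right _ hLL0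
          have e : Real.log 16 = 4 * Real.log 2 := by
            rw [show (16 : ℝ) = 2 ^ 4 by norm_num, Real.log_pow]
            norm_num
          rw [e]
          have := Real.log_two_lt_d9
          linarith
      _ = L ^ 3 := by norm_cast
  obtain ⟨Bs, hBs0, hBs⟩ := spm_poly_bd hP AA' (c := s) (fun k hk => (hs' k hk).2.2)
  have hS4 : Integrable (fun x => S x ^ 4) P := by
    refine spm_int_bdd ((spm_poly_meas AA' s).pow_const 4) (B := Bs ^ 4) ?_
    filter_upwards [hBs] with x hx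
    rw [abs_pow]
    exact pow_le_pow_left₀ (abs_nonneg _) hx 4
  have hα2 : ∑ m ∈ Finset.Icc 1 X, α m ^ 2 ≤ L ^ 4 := by
    rw [← st_sq hprI0 hPI0 hα]
    have h4 : ∀ᵐ x ∂P, (∑ m ∈ Finset.Icc 1 X, α m * Um m x) ^ 2 ≤ L ^ 3 * (1 / 2 + 1 / 2 * S x ^ 4) := by
      filter_upwards [hP.bdd] with x hx
      rw [← hαx x]
      have a1 : |∏ p ∈ I0 N, (1 - x p / Real.sqrt p + 1 / p)| ≤ 4 ^ (I0 N).card := by
        rw [Finset.abs_prod]
        calc ∏ p ∈ I0 N, |1 - x p / Real.sqrt p + 1 / p| ≤ ∏ _p ∈ I0 N, (4 : ℝ) :=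
              Finset.prod_le_prod (fun p _ => abs_nonneg _) (fun p hp =>
                bzp_fac_abs (hprI0 p hp) (hx p (hI0 hp)))
          _ = _ := by rw [Finset.prod_const]
      have a2 : (∏ p ∈ I0 N, (1 - x p / Real.sqrt p + 1 / p)) ^ 2 ≤ L ^ 3 := by
        rw [← sq_abs]
        calc _ ≤ ((4 : ℝ) ^ (I0 N).card) ^ 2 := pow_le_pow_left₀ (abs_nonneg _) a1 2
          _ = 16 ^ (I0 N).card := by rw [← pow_mul, mul_comm, pow_mul]; norm_num
          _ ≤ L ^ 3 := hcard
      rw [mul_pow]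
      have a3 : S x ^ 2 ≤ 1 / 2 + 1 / 2 * S x ^ 4 := by nlinarith [sq_nonneg (S x ^ 2 - 1)]
      exact mul_le_mul a2 a3 (sq_nonneg _) (by positivity)
    have h5 : Integrable (fun x => L ^ 3 * (1 / 2 + 1 / 2 * S x ^ 4)) P :=
      ((integrable_const _).add (hS4.const_mul _)).const_mul _
    calc _ ≤ ∫ x, L ^ 3 * (1 / 2 + 1 / 2 * S x ^ 4) ∂P :=
          integral_mono_of_nonneg (Eventually.of_forall fun x => sq_nonneg _) h5 h4
      _ = L ^ 3 * (1 / 2 + 1 / 2 * ∫ x, S x ^ 4 ∂P) := by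
          rw [integral_const_mul, integral_add (integrable_const _) (hS4.const_mul _),
            integral_const_mul]
          simp
      _ ≤ L ^ 3 * L := by
          apply mul_le_mul_of_nonneg_left _ (by positivity)
          have h6 : ∫ x, S x ^ 4 ∂P ≤ |C₄| := hC4.trans (le_abs_self _)
          linarith [abs_nonneg C₄]
      _ = L ^ 4 := by ring
  have hA : ∀ m, |α m| ≤ L ^ 2 := by
    intro m
    by_cases hm : α m = 0
    · rw [hm, abs_zero]; positivity
    · obtain ⟨h4, h5, h6⟩ := hα m hm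
      have h7 : α m ^ 2 ≤ ∑ m ∈ Finset.Icc 1 X, α m ^ 2 :=
        Finset.single_le_sum (f := fun m => α m ^ 2) (fun i _ => sq_nonneg _)
          (Finset.mem_Icc.mpr ⟨h4, h5⟩)
      apply abs_le_of_sq_le_sq _ (by positivity)
      calc α m ^ 2 ≤ L ^ 4 := h7.trans hα2
        _ = (L ^ 2) ^ 2 := by ring
  -- conclusion
  have hXL : (X : ℝ) ≤ L ^ 3 := by
    rw [hX]
    push_cast
    have b1 := bzp_I0_prod N hLL0 hlog0
    rw [← hLdef] at b1
    push_cast at b1
    calc (∏ p ∈ I0 N, (p : ℝ)) * (m₀ : ℝ) ≤ L ^ (2 : ℝ) * L := by gcongr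
      _ = L ^ 3 := by
          have : L ^ (2 : ℝ) = L ^ 2 := by norm_cast
          rw [this]; ring
  have hmain := spp_prod (A := L ^ 2) (B := L ^ 2) hdis (by rw [← hz]; exact hP) hα
    (G := fun x => (∏ p ∈ I0 N, (1 - x p / Real.sqrt p + 1 / p)) * S x) hαx hβ hβx
    hA (fun m => (hB m).trans hHB) (by positivity) hk1 (by rw [← hz]; exact hk3)
  have h9 : ∫ x, (((∏ p ∈ I0 N, (1 - x p / Real.sqrt p + 1 / p)) * S x) * mb1 (IN N) K x) *
      Um k x ∂P = a k := by
    rw [← spm_orth hpr hP haA hk1 hk3]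
    apply integral_congr_ae
    refine Eventually.of_forall fun x => ?_
    beta_reduce
    rw [hax x]
    unfold Bz
    rw [hS]
    ring
  rw [h9] at hmain
  refine hmain.trans ?_
  have hsX : Real.sqrt X ≤ L ^ 3 := by
    rw [Real.sqrt_le_left (by positivity)]
    calc (X : ℝ) ≤ L ^ 3 := hXL
      _ ≤ (L ^ 3) ^ 2 := by
        rw [← pow_mul]
        exact pow_le_pow_right₀ hlog1 (by norm_num)
  calc (X : ℝ) * (L ^ 2 * Real.sqrt X * L ^ 2) ≤ L ^ 3 * (L ^ 2 * L ^ 3 * L ^ 2) := by gcongr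
    _ = L ^ 10 := by ring

end Pool.Agent.LSP
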